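import Pool.Agent.K4H79.ZS.Match

/-!
Counting the edges.
-/

namespace K4H79.ZS

open Finset Classical

variable {V : Type} [Fintype V]

/-- adjacency indicator -/
noncomputable def A (G : SimpleGraph V) (x y : V) : ℕ := if G.Adj x y then 1 else 0

lemma A_comm (G : SimpleGraph V) (x y : V) : A G x y = A G y x := by
  unfold A; simp only [G.adj_comm]

lemma A_le (G : SimpleGraph V) (x y : V) : A G x y ≤ 1 := by
  unfold A; split_ifs <;> omega

/-- edges between a pair and the free vertices -/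
noncomputable def Dg (G : SimpleGraph V) (P : Finset (V × V)) (p : V × V) : ℕ :=
  ∑ y ∈ Fr P, A G p.1 y + ∑ y ∈ Fr P, A G p.2 y

/-- adjacencies between two pairs -/
noncomputable def cc (G : SimpleGraph V) (p q : V × V) : ℕ :=
  A G p.1 q.1 + A G p.1 q.2 + (A G p.2 q.1 + A G p.2 q.2)

lemma total {G : SimpleGraph V} {P : Finset (V × V)} (hP : Mat G P)
    (hmax : ∀ Q, Mat G Q → Q.card ≤ P.card) :
    ∑ x, ∑ y, A G x y = 2 * ∑ p ∈ P, Dg G P p + ∑ p ∈ P, ∑ q ∈ P, cc G p q := by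
  have h0 : ∑ x ∈ Fr P, ∑ y ∈ Fr P, A G x y = 0 := by
    apply Finset.sum_eq_zero
    intro x hx
    apply Finset.sum_eq_zero
    intro y hy
    unfold A
    rw [if_neg (indep hP hmax hx hy)]
  have h1 : ∑ x ∈ Fr P, ∑ p ∈ P, (A G x p.1 + A G x p.2) = ∑ p ∈ P, Dg G P p := by
    rw [Finset.sum_comm]
    apply Finset.sum_congr rfl
    intro p _
    unfold Dg
    rw [Finset.sum_add_distrib]
    congr 1 <;> exact Finset.sum_congr rfl fun x _ => A_comm G x _
  calc ∑ x, ∑ y, A G x y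
      = ∑ x ∈ Fr P, ∑ y, A G x y + ∑ p ∈ P, (∑ y, A G p.1 y + ∑ y, A G p.2 y) :=
        split hP (fun x => ∑ y, A G x y)
    _ = ∑ x ∈ Fr P, (∑ y ∈ Fr P, A G x y + ∑ p ∈ P, (A G x p.1 + A G x p.2))
        + ∑ p ∈ P, ((∑ y ∈ Fr P, A G p.1 y + ∑ q ∈ P, (A G p.1 q.1 + A G p.1 q.2))
          + (∑ y ∈ Fr P, A G p.2 y + ∑ q ∈ P, (A G p.2 q.1 + A G p.2 q.2))) := by
        congr 1
        · exact Finset.sum_congr rfl fun x _ => split hP (fun y => A G x y)
        · exact Finset.sum_congr rfl fun p _ => by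
            rw [split hP (fun y => A G p.1 y), split hP (fun y => A G p.2 y)]
    _ = 2 * ∑ p ∈ P, Dg G P p + ∑ p ∈ P, ∑ q ∈ P, cc G p q := by
        rw [Finset.sum_add_distrib, h0, h1]
        have : ∀ p, ((∑ y ∈ Fr P, A G p.1 y + ∑ q ∈ P, (A G p.1 q.1 + A G p.1 q.2))
          + (∑ y ∈ Fr P, A G p.2 y + ∑ q ∈ P, (A G p.2 q.1 + A G p.2 q.2)))
            = Dg G P p + ∑ q ∈ P, cc G p q := by
          intro p
          unfold Dg cc
          have e := Finset.sum_add_distrib (s := P)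
            (f := fun q : V × V => A G p.1 q.1 + A G p.1 q.2)
            (g := fun q : V × V => A G p.2 q.1 + A G p.2 q.2)
          rw [e]
          ring
        simp only [this]
        rw [Finset.sum_add_distrib]
        ring

lemma sumA_le (G : SimpleGraph V) (P : Finset (V × V)) (u : V) :
    ∑ y ∈ Fr P, A G u y ≤ (Fr P).card := by
  rw [Finset.card_eq_sum_ones]
  exact Finset.sum_le_sum fun y _ => A_le G u y

lemma exists_nbr {G : SimpleGraph V} {P : Finset (V × V)} {u : V}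
    (h : 1 ≤ ∑ y ∈ Fr P, A G u y) : ∃ a ∈ Fr P, G.Adj u a := by
  by_contra hcon
  push Not at hcon
  have : ∑ y ∈ Fr P, A G u y = 0 := by
    apply Finset.sum_eq_zero
    intro y hy
    unfold A
    rw [if_neg (hcon y hy)]
  omega

lemma exists_nbr_ne {G : SimpleGraph V} {P : Finset (V × V)} {u : V}
    (h : 2 ≤ ∑ y ∈ Fr P, A G u y) (b : V) : ∃ a ∈ Fr P, a ≠ b ∧ G.Adj u a := by
  by_contra hcon
  push Not at hcon
  have : ∑ y ∈ Fr P, A G u y ≤ ∑ y ∈ Fr P, if y = b then 1 else 0 := by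
    apply Finset.sum_le_sum
    intro y hy
    unfold A
    by_cases hyb : y = b
    · rw [if_pos hyb]; split_ifs <;> omega
    · rw [if_neg (hcon y hy hyb)]; omega
  rw [Finset.sum_ite_eq'] at this
  split_ifs at this <;> omega

/-- a pair with at least three edges to the free vertices has one end with all of them -/
lemma big {G : SimpleGraph V} {P : Finset (V × V)} (hP : Mat G P)
    (hmax : ∀ Q, Mat G Q → Q.card ≤ P.card) {p : V × V} (hp : p ∈ P) (h : 3 ≤ Dg G P p) :
    ∃ u v, Ends p u v ∧ 2 ≤ ∑ y ∈ Fr P, A G u y ∧ Dg G P p = ∑ y ∈ Fr P, A G u y := by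
  have key : ∀ u v, Ends p u v → 2 ≤ ∑ y ∈ Fr P, A G u y → ∑ y ∈ Fr P, A G v y = 0 := by
    intro u v he hu
    by_contra hne
    obtain ⟨b, hb, hvb⟩ := exists_nbr (G := G) (P := P) (u := v) (by omega)
    obtain ⟨a, ha, hab, hua⟩ := exists_nbr_ne (G := G) (P := P) (u := u) hu b
    exact augB hP hmax hp he ha hb hab hua hvb
  unfold Dg at h ⊢
  by_cases h1 : 2 ≤ ∑ y ∈ Fr P, A G p.1 y
  · refine ⟨p.1, p.2, Or.inl ⟨rfl, rfl⟩, h1, ?_⟩
    rw [key p.1 p.2 (Or.inl ⟨rfl, rfl⟩) h1, add_zero]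
  · have h2 : 2 ≤ ∑ y ∈ Fr P, A G p.2 y := by omega
    refine ⟨p.2, p.1, Or.inr ⟨rfl, rfl⟩, h2, ?_⟩
    rw [key p.2 p.1 (Or.inr ⟨rfl, rfl⟩) h2, zero_add]

lemma cc_le_three {G : SimpleGraph V} {P : Finset (V × V)} (hP : Mat G P)
    (hmax : ∀ Q, Mat G Q → Q.card ≤ P.card) {p q : V × V} (hp : p ∈ P) (hq : q ∈ P)
    (hpq : p ≠ q) (h : 3 ≤ Dg G P p) (h' : 3 ≤ Dg G P q) : cc G p q ≤ 3 := by
  obtain ⟨u, v, he, hu, -⟩ := big hP hmax hp h
  obtain ⟨x, y, he', hx, -⟩ := big hP hmax hq h'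
  obtain ⟨b, hb, hxb⟩ := exists_nbr (G := G) (P := P) (u := x) (by omega)
  obtain ⟨a, ha, hab, hua⟩ := exists_nbr_ne (G := G) (P := P) (u := u) hu b
  have hvy : ¬ G.Adj v y := fun h3 => augC hP hmax hp hq hpq he he' ha hb hab hua hxb h3
  have h0 : A G v y = 0 := by unfold A; rw [if_neg hvy]
  have a1 := A_le G p.1 q.1
  have a2 := A_le G p.1 q.2
  have a3 := A_le G p.2 q.1
  have a4 := A_le G p.2 q.2
  unfold cc
  rcases he with ⟨rfl, rfl⟩ | ⟨rfl, rfl⟩ <;> rcases he' with ⟨rfl, rfl⟩ | ⟨rfl, rfl⟩ <;> omega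

lemma cc_self {G : SimpleGraph V} {p : V × V} : cc G p p ≤ 2 := by
  unfold cc
  have h1 : A G p.1 p.1 = 0 := by unfold A; rw [if_neg (G.loopless.irrefl p.1)]
  have h2 : A G p.2 p.2 = 0 := by unfold A; rw [if_neg (G.loopless.irrefl p.2)]
  have a2 := A_le G p.1 p.2
  have a3 := A_le G p.2 p.1
  omega

lemma exists_max (G : SimpleGraph V) :
    ∃ P : Finset (V × V), Mat G P ∧ ∀ Q, Mat G Q → Q.card ≤ P.card := by
  have hne : (Finset.univ.filter (fun P : Finset (V × V) => Mat G P)).Nonempty := by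
    refine ⟨∅, ?_⟩
    rw [Finset.mem_filter]
    exact ⟨Finset.mem_univ _, ⟨fun p hp => absurd hp (Finset.notMem_empty p),
      fun p hp => absurd hp (Finset.notMem_empty p)⟩⟩
  obtain ⟨P, hP, hmax⟩ := Finset.exists_max_image _ Finset.card hne
  rw [Finset.mem_filter] at hP
  refine ⟨P, hP.2, fun Q hQ => hmax Q ?_⟩
  rw [Finset.mem_filter]
  exact ⟨Finset.mem_univ _, hQ⟩

/-- **Matchings and edges.** If no matching has more than `k` edges and `n ≥ 3 k + 1`, then the
number of ordered adjacent pairs is at most `k (2 n - k - 1)`. -/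
theorem edges_le (G : SimpleGraph V) (k : ℕ) (hk : ∀ Q, Mat G Q → Q.card ≤ k)
    (hn : 3 * k + 1 ≤ Fintype.card V) :
    ((∑ x, ∑ y, A G x y : ℕ) : ℤ) ≤ k * (2 * (Fintype.card V : ℤ) - k - 1) := by
  obtain ⟨P, hP, hmax⟩ := exists_max G
  have hPk := hk P hP
  set ν := P.card with hν
  set i := (Fr P).card with hi
  have hcard : Fintype.card V = i + 2 * ν := by
    have := split hP (fun _ => 1)
    simp only [Finset.sum_const, smul_eq_mul, mul_one, Finset.card_univ] at this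
    rw [this]; ring
  set a := (P.filter (fun p => 3 ≤ Dg G P p)).card with ha
  have haν : a ≤ ν := Finset.card_filter_le _ _
  -- edges to the free vertices
  have hD : ∑ p ∈ P, Dg G P p + 2 * a ≤ a * i + 2 * ν := by
    have h1 : ∀ p ∈ P, Dg G P p + (if 3 ≤ Dg G P p then 2 else 0)
        ≤ (if 3 ≤ Dg G P p then i else 0) + 2 := by
      intro p hp
      by_cases h : 3 ≤ Dg G P p
      · rw [if_pos h, if_pos h]
        obtain ⟨u, v, -, -, he⟩ := big hP hmax hp h
        have := sumA_le G P u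
        omega
      · rw [if_neg h, if_neg h]; omega
    have h2 := Finset.sum_le_sum h1
    rw [Finset.sum_add_distrib, Finset.sum_add_distrib, ← Finset.sum_filter, ← Finset.sum_filter,
      Finset.sum_const, Finset.sum_const, Finset.sum_const] at h2
    simp only [smul_eq_mul] at h2
    rw [← ha, ← hν] at h2
    linarith
  -- edges between the pairs
  have hC : ∑ p ∈ P, ∑ q ∈ P, cc G p q + 2 * ν + a * a ≤ 4 * (ν * ν) + a := by
    have h1 : ∀ p ∈ P, ∀ q ∈ P, cc G p q + (if p = q then 2 else 0)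
        + (if 3 ≤ Dg G P p then (if 3 ≤ Dg G P q then 1 else 0) else 0)
        ≤ 4 + (if p = q then (if 3 ≤ Dg G P p then 1 else 0) else 0) := by
      intro p hp q hq
      by_cases hpq : p = q
      · subst hpq
        have := cc_self (G := G) (p := p)
        simp only [if_true]
        split_ifs <;> omega
      · rw [if_neg hpq, if_neg hpq]
        by_cases h : 3 ≤ Dg G P p
        · by_cases h' : 3 ≤ Dg G P q
          · rw [if_pos h, if_pos h']
            have := cc_le_three hP hmax hp hq hpq h h'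
            omega
          · rw [if_pos h, if_neg h']
            have a1 := A_le G p.1 q.1
            have a2 := A_le G p.1 q.2
            have a3 := A_le G p.2 q.1
            have a4 := A_le G p.2 q.2
            unfold cc
            omega
        · rw [if_neg h]
          have a1 := A_le G p.1 q.1
          have a2 := A_le G p.1 q.2
          have a3 := A_le G p.2 q.1
          have a4 := A_le G p.2 q.2
          unfold cc
          omega
    have h2 := Finset.sum_le_sum fun p hp => Finset.sum_le_sum (h1 p hp)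
    have e1 : ∑ p ∈ P, ∑ q ∈ P, (if p = q then 2 else 0) = 2 * ν := by
      have : ∀ p ∈ P, ∑ q ∈ P, (if p = q then 2 else 0) = 2 := by
        intro p hp
        rw [Finset.sum_ite_eq, if_pos hp]
      rw [Finset.sum_congr rfl this, Finset.sum_const, smul_eq_mul, ← hν]; ring
    have e2 : ∑ p ∈ P, ∑ q ∈ P, (if 3 ≤ Dg G P p then (if 3 ≤ Dg G P q then 1 else 0) else 0)
        = a * a := by
      have h3 : ∀ p ∈ P, ∑ q ∈ P, (if 3 ≤ Dg G P p then (if 3 ≤ Dg G P q then 1 else 0) else 0)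
          = if 3 ≤ Dg G P p then a else 0 := by
        intro p _
        by_cases h : 3 ≤ Dg G P p
        · simp only [if_pos h]
          rw [← Finset.sum_filter, Finset.sum_const, smul_eq_mul, mul_one]
        · simp only [if_neg h, Finset.sum_const_zero]
      rw [Finset.sum_congr rfl h3, ← Finset.sum_filter, Finset.sum_const, smul_eq_mul]
    have e3 : ∑ p ∈ P, ∑ q ∈ P, (if p = q then (if 3 ≤ Dg G P p then 1 else 0) else 0) = a := by
      have h3 : ∀ p ∈ P, ∑ q ∈ P, (if p = q then (if 3 ≤ Dg G P p then 1 else 0) else 0)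
          = if 3 ≤ Dg G P p then 1 else 0 := by
        intro p hp
        rw [Finset.sum_ite_eq, if_pos hp]
      rw [Finset.sum_congr rfl h3, ← Finset.sum_filter, Finset.sum_const, smul_eq_mul, mul_one]
    have e4 : ∑ p ∈ P, ∑ q ∈ P, (4 : ℕ) = 4 * (ν * ν) := by
      rw [Finset.sum_const, Finset.sum_const, smul_eq_mul, smul_eq_mul, ← hν]; ring
    simp only [Finset.sum_add_distrib] at h2
    rw [e1, e2, e3, e4] at h2
    exact h2
  rw [total hP hmax]
  have hn' : 3 * k + 1 ≤ i + 2 * ν := by rw [← hcard]; exact hn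
  rw [hcard]
  obtain ⟨b, hb⟩ := Nat.exists_eq_add_of_le haν
  obtain ⟨j, hj⟩ := Nat.exists_eq_add_of_le hPk
  push_cast
  have hD' : ((∑ p ∈ P, Dg G P p : ℕ) : ℤ) + 2 * a ≤ a * i + 2 * ν := by exact_mod_cast hD
  have hC' : ((∑ p ∈ P, ∑ q ∈ P, cc G p q : ℕ) : ℤ) + 2 * ν + a * a ≤ 4 * (ν * ν) + a := by
    exact_mod_cast hC
  push_cast at hD' hC'
  have hbz : (ν : ℤ) = a + b := by exact_mod_cast hb
  have hjz : (k : ℤ) = ν + j := by exact_mod_cast hj
  have hnz : 3 * (k : ℤ) + 1 ≤ i + 2 * ν := by exact_mod_cast hn'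
  have hb0 : (0 : ℤ) ≤ b := Int.natCast_nonneg b
  have hj0 : (0 : ℤ) ≤ j := Int.natCast_nonneg j
  have ha0 : (0 : ℤ) ≤ a := Int.natCast_nonneg a
  have hi0 : (0 : ℤ) ≤ i := Int.natCast_nonneg i
  -- b (2 i - 2 ν + b - 3) ≥ 0
  have key1 : 0 ≤ (b : ℤ) * (2 * i - 2 * ν + b - 3) := by
    rcases Nat.eq_zero_or_pos b with h | h
    · rw [h]; simp
    · apply mul_nonneg hb0
      have : (1 : ℤ) ≤ b := by exact_mod_cast h
      linarith
  have key2 : 0 ≤ (j : ℤ) * (2 * (i + 2 * ν) - 1 - k - ν) := by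
    apply mul_nonneg hj0
    linarith
  have e5 : (k : ℤ) * (2 * (i + 2 * ν) - k - 1)
      = ν * (2 * (i + 2 * ν) - ν - 1) + j * (2 * (i + 2 * ν) - 1 - k - ν) := by
    rw [hjz]; ring
  have e6 : (ν : ℤ) * (2 * (i + 2 * ν) - ν - 1)
      = 2 * (a * i + 2 * ν - 2 * a) + (4 * (ν * ν) + a - 2 * ν - a * a)
        + b * (2 * i - 2 * ν + b - 3) := by
    rw [hbz]; ring
  rw [e5, e6]
  linarith

end K4H79.ZS
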