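import Mathlib

/-!
The number of edges of a graph without large matchings (range of large order).
-/

namespace K4H79.ZS

open Finset Classical

variable {V : Type} [Fintype V]

/-- a matching, as a set of ordered pairs -/
structure Mat (G : SimpleGraph V) (P : Finset (V × V)) : Prop where
  adj : ∀ p ∈ P, G.Adj p.1 p.2
  dis : ∀ p ∈ P, ∀ q ∈ P, p ≠ q → p.1 ≠ q.1 ∧ p.1 ≠ q.2 ∧ p.2 ≠ q.1 ∧ p.2 ≠ q.2

/-- the free vertices -/
noncomputable def Fr (P : Finset (V × V)) : Finset V :=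
  Finset.univ.filter (fun x => ∀ p ∈ P, x ≠ p.1 ∧ x ≠ p.2)

lemma mem_Fr {P : Finset (V × V)} {x : V} : x ∈ Fr P ↔ ∀ p ∈ P, x ≠ p.1 ∧ x ≠ p.2 := by
  unfold Fr; simp

/-- `u`, `v` are the two ends of `p` -/
def Ends (p : V × V) (u v : V) : Prop := (u = p.1 ∧ v = p.2) ∨ (u = p.2 ∧ v = p.1)

lemma indep {G : SimpleGraph V} {P : Finset (V × V)} (hP : Mat G P)
    (hmax : ∀ Q, Mat G Q → Q.card ≤ P.card) {x y : V} (hx : x ∈ Fr P) (hy : y ∈ Fr P) :
    ¬ G.Adj x y := by
  intro h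
  rw [mem_Fr] at hx hy
  have hn : (x, y) ∉ P := fun h' => (hx _ h').1 rfl
  have hne := h.ne
  have : Mat G (insert (x, y) P) := by
    constructor
    · intro p hp
      rcases Finset.mem_insert.mp hp with rfl | hp
      · exact h
      · exact hP.adj p hp
    · intro p hp q hq hpq
      rcases Finset.mem_insert.mp hp with rfl | hp <;> rcases Finset.mem_insert.mp hq with rfl | hq
      · exact absurd rfl hpq
      · exact ⟨(hx q hq).1, (hx q hq).2, (hy q hq).1, (hy q hq).2⟩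
      · exact ⟨(hx p hp).1.symm, (hy p hp).1.symm, (hx p hp).2.symm, (hy p hp).2.symm⟩
      · exact hP.dis p hp q hq hpq
  have h2 := hmax _ this
  rw [Finset.card_insert_of_notMem hn] at h2
  omega

lemma augB {G : SimpleGraph V} {P : Finset (V × V)} (hP : Mat G P)
    (hmax : ∀ Q, Mat G Q → Q.card ≤ P.card) {p : V × V} (hp : p ∈ P) {u v a b : V}
    (he : Ends p u v) (ha : a ∈ Fr P) (hb : b ∈ Fr P) (hab : a ≠ b) (h1 : G.Adj u a)
    (h2 : G.Adj v b) : False := by
  rw [mem_Fr] at ha hb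
  have hpa := ha p hp
  have hpb := hb p hp
  have huv : u ≠ v := by
    have := (hP.adj p hp).ne
    rcases he with ⟨rfl, rfl⟩ | ⟨rfl, rfl⟩
    · exact this
    · exact this.symm
  have hua : u ≠ a := h1.ne
  have hvb : v ≠ b := h2.ne
  have hub : u ≠ b := by
    rcases he with ⟨rfl, rfl⟩ | ⟨rfl, rfl⟩
    · exact hpb.1.symm
    · exact hpb.2.symm
  have hva : v ≠ a := by
    rcases he with ⟨rfl, rfl⟩ | ⟨rfl, rfl⟩
    · exact hpa.2.symm
    · exact hpa.1.symm
  have hoth : ∀ q ∈ P, q ≠ p → u ≠ q.1 ∧ u ≠ q.2 ∧ v ≠ q.1 ∧ v ≠ q.2 := by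
    intro q hq hqp
    have := hP.dis p hp q hq hqp.symm
    rcases he with ⟨rfl, rfl⟩ | ⟨rfl, rfl⟩
    · exact this
    · exact ⟨this.2.2.1, this.2.2.2, this.1, this.2.1⟩
  have hM : Mat G (insert (u, a) (insert (v, b) (P.erase p))) := by
    constructor
    · intro q hq
      rcases Finset.mem_insert.mp hq with rfl | hq
      · exact h1
      rcases Finset.mem_insert.mp hq with rfl | hq
      · exact h2
      · exact hP.adj q (Finset.mem_of_mem_erase hq)
    · intro q hq r hr hqr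
      simp only [Finset.mem_insert, Finset.mem_erase] at hq hr
      rcases hq with rfl | rfl | ⟨hq1, hq2⟩ <;> rcases hr with rfl | rfl | ⟨hr1, hr2⟩
      · exact absurd rfl hqr
      · exact ⟨huv, hub, hva.symm, hab⟩
      · have := hoth r hr2 hr1
        exact ⟨this.1, this.2.1, (ha r hr2).1, (ha r hr2).2⟩
      · exact ⟨huv.symm, hva, hub.symm, hab.symm⟩
      · exact absurd rfl hqr
      · have := hoth r hr2 hr1
        exact ⟨this.2.2.1, this.2.2.2, (hb r hr2).1, (hb r hr2).2⟩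
      · have := hoth q hq2 hq1
        exact ⟨this.1.symm, (ha q hq2).1.symm, this.2.1.symm, (ha q hq2).2.symm⟩
      · have := hoth q hq2 hq1
        exact ⟨this.2.2.1.symm, (hb q hq2).1.symm, this.2.2.2.symm, (hb q hq2).2.symm⟩
      · exact hP.dis q hq2 r hr2 hqr
  have h3 := hmax _ hM
  have hn1 : (v, b) ∉ P.erase p := by
    intro h
    exact (hb _ (Finset.mem_of_mem_erase h)).2 rfl
  have hn2 : (u, a) ∉ insert (v, b) (P.erase p) := by
    intro h
    rcases Finset.mem_insert.mp h with h | h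
    · exact huv (congrArg Prod.fst h)
    · exact (ha _ (Finset.mem_of_mem_erase h)).2 rfl
  rw [Finset.card_insert_of_notMem hn2, Finset.card_insert_of_notMem hn1,
    Finset.card_erase_of_mem hp] at h3
  have := Finset.card_pos.mpr ⟨p, hp⟩
  omega

lemma augC {G : SimpleGraph V} {P : Finset (V × V)} (hP : Mat G P)
    (hmax : ∀ Q, Mat G Q → Q.card ≤ P.card) {p p' : V × V} (hp : p ∈ P) (hp' : p' ∈ P)
    (hpp : p ≠ p') {u v x y a b : V} (he : Ends p u v) (he' : Ends p' x y)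
    (ha : a ∈ Fr P) (hb : b ∈ Fr P) (hab : a ≠ b) (h1 : G.Adj u a) (h2 : G.Adj x b)
    (h3 : G.Adj v y) : False := by
  rw [mem_Fr] at ha hb
  -- replace p by (v, y)? we use a two-step view: remove p, p', add (u,a), (x,b), (v,y)
  have huv : u ≠ v := by
    have := (hP.adj p hp).ne
    rcases he with ⟨rfl, rfl⟩ | ⟨rfl, rfl⟩
    · exact this
    · exact this.symm
  have hxy : x ≠ y := by
    have := (hP.adj p' hp').ne
    rcases he' with ⟨rfl, rfl⟩ | ⟨rfl, rfl⟩
    · exact this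
    · exact this.symm
  have hd := hP.dis p hp p' hp' hpp
  have hcross : u ≠ x ∧ u ≠ y ∧ v ≠ x ∧ v ≠ y := by
    rcases he with ⟨rfl, rfl⟩ | ⟨rfl, rfl⟩ <;> rcases he' with ⟨rfl, rfl⟩ | ⟨rfl, rfl⟩ <;>
      tauto
  have hfa : a ≠ u ∧ a ≠ v ∧ a ≠ x ∧ a ≠ y := by
    have q1 := ha p hp
    have q2 := ha p' hp'
    rcases he with ⟨rfl, rfl⟩ | ⟨rfl, rfl⟩ <;> rcases he' with ⟨rfl, rfl⟩ | ⟨rfl, rfl⟩ <;>
      tauto
  have hfb : b ≠ u ∧ b ≠ v ∧ b ≠ x ∧ b ≠ y := by
    have q1 := hb p hp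
    have q2 := hb p' hp'
    rcases he with ⟨rfl, rfl⟩ | ⟨rfl, rfl⟩ <;> rcases he' with ⟨rfl, rfl⟩ | ⟨rfl, rfl⟩ <;>
      tauto
  have hoth : ∀ q ∈ P, q ≠ p → q ≠ p' → (u ≠ q.1 ∧ u ≠ q.2 ∧ v ≠ q.1 ∧ v ≠ q.2) ∧
      (x ≠ q.1 ∧ x ≠ q.2 ∧ y ≠ q.1 ∧ y ≠ q.2) := by
    intro q hq hqp hqp'
    have q1 := hP.dis p hp q hq hqp.symm
    have q2 := hP.dis p' hp' q hq hqp'.symm
    rcases he with ⟨rfl, rfl⟩ | ⟨rfl, rfl⟩ <;> rcases he' with ⟨rfl, rfl⟩ | ⟨rfl, rfl⟩ <;>
      tauto
  have hM : Mat G (insert (u, a) (insert (x, b) (insert (v, y) ((P.erase p).erase p')))) := by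
    constructor
    · intro q hq
      simp only [Finset.mem_insert, Finset.mem_erase] at hq
      rcases hq with rfl | rfl | rfl | ⟨hq1, hq2, hq3⟩
      · exact h1
      · exact h2
      · exact h3
      · exact hP.adj q hq3
    · intro q hq r hr hqr
      simp only [Finset.mem_insert, Finset.mem_erase] at hq hr
      rcases hq with rfl | rfl | rfl | ⟨hq1, hq2, hq3⟩ <;>
        rcases hr with rfl | rfl | rfl | ⟨hr1, hr2, hr3⟩
      · exact absurd rfl hqr
      · exact ⟨hcross.1, hfb.1.symm, hfa.2.2.1, hab⟩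
      · exact ⟨huv, hcross.2.1, hfa.2.1, hfa.2.2.2⟩
      · have := hoth r hr3 hr2 hr1
        exact ⟨this.1.1, this.1.2.1, (ha r hr3).1, (ha r hr3).2⟩
      · exact ⟨hcross.1.symm, hfa.2.2.1.symm, hfb.1, hab.symm⟩
      · exact absurd rfl hqr
      · exact ⟨hcross.2.2.1.symm, hxy, hfb.2.1, hfb.2.2.2⟩
      · have := hoth r hr3 hr2 hr1
        exact ⟨this.2.1, this.2.2.1, (hb r hr3).1, (hb r hr3).2⟩
      · exact ⟨huv.symm, hfa.2.1.symm, hcross.2.1.symm, hfa.2.2.2.symm⟩
      · exact ⟨hcross.2.2.1, hfb.2.1.symm, hxy.symm, hfb.2.2.2.symm⟩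
      · exact absurd rfl hqr
      · have := hoth r hr3 hr2 hr1
        exact ⟨this.1.2.2.1, this.1.2.2.2, this.2.2.2.1, this.2.2.2.2⟩
      · have := hoth q hq3 hq2 hq1
        exact ⟨this.1.1.symm, (ha q hq3).1.symm, this.1.2.1.symm, (ha q hq3).2.symm⟩
      · have := hoth q hq3 hq2 hq1
        exact ⟨this.2.1.symm, (hb q hq3).1.symm, this.2.2.1.symm, (hb q hq3).2.symm⟩
      · have := hoth q hq3 hq2 hq1
        exact ⟨this.1.2.2.1.symm, this.2.2.2.1.symm, this.1.2.2.2.symm, this.2.2.2.2.symm⟩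
      · exact hP.dis q hq3 r hr3 hqr
  have h4 := hmax _ hM
  have hn1 : (v, y) ∉ (P.erase p).erase p' := by
    intro h
    have h5 := Finset.mem_of_mem_erase h
    exact (hoth _ (Finset.mem_of_mem_erase h5) (Finset.ne_of_mem_erase h5)
      (Finset.ne_of_mem_erase h)).1.2.2.1 rfl
  have hn2 : (x, b) ∉ insert (v, y) ((P.erase p).erase p') := by
    intro h
    rcases Finset.mem_insert.mp h with h | h
    · exact hcross.2.2.1 (congrArg Prod.fst h).symm
    · exact (hb _ (Finset.mem_of_mem_erase (Finset.mem_of_mem_erase h))).2 rfl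
  have hn3 : (u, a) ∉ insert (x, b) (insert (v, y) ((P.erase p).erase p')) := by
    intro h
    rcases Finset.mem_insert.mp h with h | h
    · exact hcross.1 (congrArg Prod.fst h)
    rcases Finset.mem_insert.mp h with h | h
    · exact huv (congrArg Prod.fst h)
    · exact (ha _ (Finset.mem_of_mem_erase (Finset.mem_of_mem_erase h))).2 rfl
  have hp2 : p' ∈ P.erase p := Finset.mem_erase.mpr ⟨hpp.symm, hp'⟩
  rw [Finset.card_insert_of_notMem hn3, Finset.card_insert_of_notMem hn2,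
    Finset.card_insert_of_notMem hn1, Finset.card_erase_of_mem hp2,
    Finset.card_erase_of_mem hp] at h4
  have h6 := Finset.card_pos.mpr ⟨p', hp2⟩
  rw [Finset.card_erase_of_mem hp] at h6
  omega

/-- splitting a sum over the vertices -/
lemma split {G : SimpleGraph V} {P : Finset (V × V)} (hP : Mat G P) (f : V → ℕ) :
    ∑ x, f x = ∑ x ∈ Fr P, f x + ∑ p ∈ P, (f p.1 + f p.2) := by
  have h1 : (Finset.univ : Finset V) = Fr P ∪ P.biUnion (fun p => {p.1, p.2}) := by
    ext x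
    simp only [Finset.mem_univ, Finset.mem_union, mem_Fr, Finset.mem_biUnion, Finset.mem_insert,
      Finset.mem_singleton, true_iff]
    by_contra h
    push Not at h
    obtain ⟨⟨p, hp, h2⟩, h3⟩ := h
    have := h3 p hp
    exact this.2 (h2 this.1)
  have h2 : Disjoint (Fr P) (P.biUnion (fun p => {p.1, p.2})) := by
    rw [Finset.disjoint_left]
    intro x hx hx2
    rw [mem_Fr] at hx
    simp only [Finset.mem_biUnion, Finset.mem_insert, Finset.mem_singleton] at hx2
    obtain ⟨p, hp, h3⟩ := hx2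
    have := hx p hp
    tauto
  rw [h1, Finset.sum_union h2, Finset.sum_biUnion]
  · congr 1
    apply Finset.sum_congr rfl
    intro p hp
    exact Finset.sum_pair (hP.adj p hp).ne
  · intro p hp q hq hpq
    have := hP.dis p hp q hq hpq
    show Disjoint ({p.1, p.2} : Finset V) {q.1, q.2}
    rw [Finset.disjoint_left]
    intro x hx hx2
    simp only [Finset.mem_insert, Finset.mem_singleton] at hx hx2
    rcases hx with rfl | rfl <;> rcases hx2 with h | h
    · exact this.1 h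
    · exact this.2.1 h
    · exact this.2.2.1 h
    · exact this.2.2.2 h

end K4H79.ZS
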