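import Pool.Agent.K4H79.ZS.Count

/-!
# MP_22c8d1_co: zero-sum Turán numbers of matchings for `n ≤ 3 m - 2` and for `n ≥ 6 m - 5`
-/

namespace Pool.Agent.Results.MP_22c8d1_co.OutsideMiddleRange

open Finset K4H79.ZS

/-- twice the value `C(2s-2, 2) + (2s-2)(n-2s+2)` -/
def val (n k : ℕ) : ℕ := k * (2 * n - k - 1) / 2

lemma sum_A_eq {n : ℕ} (G : SimpleGraph (Fin n)) :
    ∑ x, ∑ y, A G x y = 2 * G.edgeSet.ncard := by
  classical
  have h1 : ∀ x, ∑ y, A G x y = G.degree x := by
    intro x
    unfold A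
    rw [← SimpleGraph.card_neighborFinset_eq_degree, Finset.card_eq_sum_ones,
      ← Finset.sum_filter]
    apply Finset.sum_congr _ (fun _ _ => rfl)
    ext y
    simp
  rw [Finset.sum_congr rfl fun x _ => h1 x, SimpleGraph.sum_degrees_eq_twice_card_edges]
  congr 1
  rw [Set.ncard_eq_toFinset_card']
  rfl

/-- the disjoint-edge condition in terms of ordered pairs -/
lemma toSym {n : ℕ} {G : SimpleGraph (Fin n)} {P : Finset (Fin n × Fin n)} (hP : Mat G P) :
    ∃ E : Finset (Sym2 (Fin n)), (↑E : Set (Sym2 (Fin n))) ⊆ G.edgeSet ∧ E.card = P.card ∧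
      ∀ e ∈ E, ∀ f ∈ E, e ≠ f → ∀ v ∈ e, v ∉ f := by
  classical
  refine ⟨P.image (fun p => s(p.1, p.2)), ?_, ?_, ?_⟩
  · intro e he
    rw [Finset.mem_coe, Finset.mem_image] at he
    obtain ⟨p, hp, rfl⟩ := he
    exact hP.adj p hp
  · apply Finset.card_image_of_injOn
    intro p hp q hq h
    by_contra hne
    have hd := hP.dis p hp q hq hne
    have h' : s(p.1, p.2) = s(q.1, q.2) := h
    rw [Sym2.eq_iff] at h'
    rcases h' with ⟨h1, h2⟩ | ⟨h1, h2⟩
    · exact hd.1 h1
    · exact hd.2.1 h1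
  · intro e he f hf hef v hv hv2
    rw [Finset.mem_image] at he hf
    obtain ⟨p, hp, rfl⟩ := he
    obtain ⟨q, hq, rfl⟩ := hf
    have hpq : p ≠ q := fun h => hef (by rw [h])
    have hd := hP.dis p hp q hq hpq
    rw [Sym2.mem_iff] at hv hv2
    rcases hv with rfl | rfl <;> rcases hv2 with h | h
    · exact hd.1 h
    · exact hd.2.1 h
    · exact hd.2.2.1 h
    · exact hd.2.2.2 h

/-- upper bound for zero-sum-free colourings -/
lemma upper {n s : ℕ} (hs : 1 ≤ s) (hn : 6 * s ≤ n + 5) (G : SimpleGraph (Fin n))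
    (c : Sym2 (Fin n) → ZMod s)
    (hc : ∀ F : Finset (Sym2 (Fin n)), (↑F : Set (Sym2 (Fin n))) ⊆ G.edgeSet → F.card = s →
        (∀ e ∈ F, ∀ f ∈ F, e ≠ f → ∀ v ∈ e, v ∉ f) → ∑ e ∈ F, c e ≠ 0) :
    G.edgeSet.ncard ≤ val n (2 * s - 2) := by
  have hk : ∀ Q, Mat G Q → Q.card ≤ 2 * s - 2 := by
    intro Q hQ
    by_contra hcon
    obtain ⟨E, hE1, hE2, hE3⟩ := toSym hQ
    obtain ⟨t, ht1, ht2, ht3⟩ := ZMod.erdos_ginzburg_ziv (n := s) (s := E) c (by omega)
    exact hc t (fun e he => hE1 (ht1 he)) ht2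
      (fun e he f hf => hE3 e (ht1 he) f (ht1 hf)) ht3
  have h1 := edges_le G (2 * s - 2) hk (by rw [Fintype.card_fin]; omega)
  rw [sum_A_eq, Fintype.card_fin] at h1
  unfold val
  rw [Nat.le_div_iff_mul_le (by norm_num)]
  have h2 : ((2 * n - (2 * s - 2) - 1 : ℕ) : ℤ) = 2 * (n : ℤ) - ((2 * s - 2 : ℕ) : ℤ) - 1 := by
    omega
  have h3 : ((2 * G.edgeSet.ncard : ℕ) : ℤ)
      ≤ (((2 * s - 2) * (2 * n - (2 * s - 2) - 1) : ℕ) : ℤ) := by
    rw [Nat.cast_mul, Nat.cast_mul (2 * s - 2), h2]
    push_cast at h1 ⊢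
    exact h1
  have h4 : 2 * G.edgeSet.ncard ≤ (2 * s - 2) * (2 * n - (2 * s - 2) - 1) := by exact_mod_cast h3
  linarith

/-- the extremal graph: all edges that meet the first `k` vertices -/
def ext (n k : ℕ) : SimpleGraph (Fin n) where
  Adj x y := x ≠ y ∧ (x.val < k ∨ y.val < k)
  symm := ⟨fun x y h => ⟨h.1.symm, h.2.symm⟩⟩
  loopless := ⟨fun x h => h.1 rfl⟩

lemma ext_edges {n k : ℕ} (hk : k ≤ n) : (ext n k).edgeSet.ncard = val n k := by
  classical
  have h1 : ∀ x : Fin n, ∑ y, A (ext n k) x y = if x.val < k then n - 1 else k := by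
    intro x
    have hc : (Finset.univ.filter (fun y : Fin n => y.val < k)).card = k := by
      rw [Fin.card_filter_val_lt]
      exact min_eq_right hk
    by_cases hx : x.val < k
    · rw [if_pos hx]
      have : ∀ y, A (ext n k) x y = if x = y then 0 else 1 := by
        intro y
        unfold A ext
        by_cases hxy : x = y
        · simp [hxy]
        · simp [hxy, hx]
      rw [Finset.sum_congr rfl fun y _ => this y, Finset.sum_ite, Finset.sum_const_zero, zero_add,
        Finset.sum_const, smul_eq_mul, mul_one, Finset.filter_not, Finset.filter_eq,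
        if_pos (Finset.mem_univ _), Finset.card_sdiff_of_subset (Finset.subset_univ _),
        Finset.card_singleton, Finset.card_univ, Fintype.card_fin]
    · rw [if_neg hx]
      have : ∀ y, A (ext n k) x y = if y.val < k then 1 else 0 := by
        intro y
        unfold A ext
        by_cases hy : y.val < k
        · have hxy : x ≠ y := by
            rintro rfl
            exact hx hy
          simp [hxy, hy]
        · simp [hx, hy]
      rw [Finset.sum_congr rfl fun y _ => this y, ← Finset.sum_filter, Finset.sum_const,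
        smul_eq_mul, mul_one, hc]
  have h2 := sum_A_eq (ext n k)
  rw [Finset.sum_congr rfl fun x _ => h1 x, Finset.sum_ite, Finset.sum_const, Finset.sum_const] at h2
  have hc : (Finset.univ.filter (fun y : Fin n => y.val < k)).card = k := by
    rw [Fin.card_filter_val_lt]
    exact min_eq_right hk
  have hc2 : (Finset.univ.filter (fun y : Fin n => ¬ y.val < k)).card = n - k := by
    have := Finset.card_filter_add_card_filter_not (s := (Finset.univ : Finset (Fin n)))
      (fun y : Fin n => y.val < k)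
    rw [hc, Finset.card_univ, Fintype.card_fin] at this
    omega
  rw [hc, hc2, smul_eq_mul, smul_eq_mul] at h2
  unfold val
  have h3 : k * (2 * n - k - 1) = k * (n - 1) + (n - k) * k := by
    obtain ⟨d, rfl⟩ := Nat.exists_eq_add_of_le hk
    rcases Nat.eq_zero_or_pos k with rfl | hpos
    · simp
    · have e1 : 2 * (k + d) - k - 1 = (k + d - 1) + d := by omega
      have e2 : k + d - k = d := by omega
      rw [e1, e2]; ring
  rw [h3, h2]
  omega

lemma ext_good (n s : ℕ) (hs : 1 ≤ s) :
    ∃ c : Sym2 (Fin n) → Bool, ∀ F : Finset (Sym2 (Fin n)),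
        (↑F : Set (Sym2 (Fin n))) ⊆ (ext n (2 * s - 2)).edgeSet → F.card = s →
        (∀ e ∈ F, ∀ f ∈ F, e ≠ f → ∀ v ∈ e, v ∉ f) →
        ¬ ∃ b : Bool, ∀ e ∈ F, c e = b := by
  classical
  refine ⟨fun e => decide (∃ v ∈ e, v.val < s - 1), ?_⟩
  rintro F hF hcard hdis ⟨b, hb⟩
  -- a choice of a low end for each edge
  have hlow : ∀ e ∈ F, ∃ v ∈ e, (if b then v.val else v.val - (s - 1)) < s - 1 := by
    intro e he
    have h1 := hb e he
    cases b with
    | true =>
      have h2 := of_decide_eq_true h1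
      obtain ⟨v, hv, hv2⟩ := h2
      exact ⟨v, hv, by simpa using hv2⟩
    | false =>
      have h2 := of_decide_eq_false h1
      have h3 : e ∈ (ext n (2 * s - 2)).edgeSet := hF he
      induction e using Sym2.ind with
      | _ x y =>
        have h4 : x ≠ y ∧ (x.val < 2 * s - 2 ∨ y.val < 2 * s - 2) := h3
        push Not at h2
        rcases h4.2 with h5 | h5
        · have := h2 x (Sym2.mem_mk_left x y)
          refine ⟨x, Sym2.mem_mk_left x y, ?_⟩
          simp only [Bool.false_eq_true, if_false]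
          omega
        · have := h2 y (Sym2.mem_mk_right x y)
          refine ⟨y, Sym2.mem_mk_right x y, ?_⟩
          simp only [Bool.false_eq_true, if_false]
          omega
  obtain ⟨e0, he0⟩ := Finset.card_pos.mp (show 0 < F.card by omega)
  obtain ⟨v0, -, -⟩ := hlow e0 he0
  have : Nonempty (Fin n) := ⟨v0⟩
  choose! f hf1 hf2 using hlow
  have hge : b = false → ∀ e ∈ F, s - 1 ≤ (f e).val := by
    rintro rfl e he
    have h2 := of_decide_eq_false (hb e he)
    push Not at h2
    exact h2 _ (hf1 e he)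
  have hmaps : ∀ e ∈ F, (if b then (f e).val else (f e).val - (s - 1)) ∈ Finset.range (s - 1) := by
    intro e he
    rw [Finset.mem_range]
    exact hf2 e he
  obtain ⟨e, he, e', he', hne, heq⟩ := Finset.exists_ne_map_eq_of_card_lt_of_maps_to
    (by rw [Finset.card_range, hcard]; omega) hmaps
  have hfe : f e = f e' := by
    apply Fin.ext
    cases b with
    | true => simpa using heq
    | false =>
      have g1 := hge rfl e he
      have g2 := hge rfl e' he'
      simp only [Bool.false_eq_true, if_false] at heq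
      omega
  exact hdis e he e' he' hne (f e) (hf1 e he) (by rw [hfe]; exact hf1 e' he')

lemma small_good (n s : ℕ) (hs : 1 ≤ s) (hn : n + 2 ≤ 3 * s) :
    ∃ c : Sym2 (Fin n) → Bool, ∀ F : Finset (Sym2 (Fin n)),
        (↑F : Set (Sym2 (Fin n))) ⊆ (⊤ : SimpleGraph (Fin n)).edgeSet → F.card = s →
        (∀ e ∈ F, ∀ f ∈ F, e ≠ f → ∀ v ∈ e, v ∉ f) →
        ¬ ∃ b : Bool, ∀ e ∈ F, c e = b := by
  classical
  refine ⟨fun e => decide (∃ v ∈ e, v.val < s - 1), ?_⟩
  rintro F hF hcard hdis ⟨b, hb⟩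
  cases b with
  | true =>
    have hlow : ∀ e ∈ F, ∃ v ∈ e, v.val < s - 1 := fun e he => of_decide_eq_true (hb e he)
    obtain ⟨e0, he0⟩ := Finset.card_pos.mp (show 0 < F.card by omega)
    obtain ⟨v0, -, -⟩ := hlow e0 he0
    have : Nonempty (Fin n) := ⟨v0⟩
    choose! f hf1 hf2 using hlow
    obtain ⟨e, he, e', he', hne, heq⟩ := Finset.exists_ne_map_eq_of_card_lt_of_maps_to
      (f := fun e => (f e).val) (s := F) (t := Finset.range (s - 1))
      (by rw [Finset.card_range, hcard]; omega)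
      (fun e he => Finset.mem_coe.mpr (Finset.mem_range.mpr (hf2 e (Finset.mem_coe.mp he))))
    have hfe : f e = f e' := Fin.ext heq
    exact hdis e he e' he' hne (f e) (hf1 e he) (by rw [hfe]; exact hf1 e' he')
  | false =>
    have hhigh : ∀ e ∈ F, ∀ v ∈ e, ¬ v.val < s - 1 := by
      intro e he
      have h2 := of_decide_eq_false (hb e he)
      push Not at h2
      intro v hv
      have := h2 v hv
      omega
    have hc2 : ∀ e ∈ F, (Finset.univ.filter (fun v => v ∈ e)).card = 2 := by
      intro e he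
      have h3 : e ∈ (⊤ : SimpleGraph (Fin n)).edgeSet := hF he
      induction e using Sym2.ind with
      | _ x y =>
        have hxy : x ≠ y := by
          rw [SimpleGraph.mem_edgeSet, SimpleGraph.top_adj] at h3
          exact h3
        have : (Finset.univ.filter (fun v => v ∈ s(x, y))) = {x, y} := by
          ext v
          simp
        rw [this, Finset.card_pair hxy]
    have hbi : (F.biUnion (fun e => Finset.univ.filter (fun v => v ∈ e))).card = 2 * s := by
      rw [Finset.card_biUnion]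
      · rw [Finset.sum_congr rfl hc2, Finset.sum_const, hcard, smul_eq_mul, mul_comm]
      · intro e he f hf hef
        show Disjoint (Finset.univ.filter (fun v => v ∈ e)) (Finset.univ.filter (fun v => v ∈ f))
        rw [Finset.disjoint_left]
        intro v hv hv2
        rw [Finset.mem_filter] at hv hv2
        exact hdis e he f hf hef v hv.2 hv2.2
    have hsub : (F.biUnion (fun e => Finset.univ.filter (fun v => v ∈ e)))
        ⊆ Finset.univ.filter (fun v : Fin n => ¬ v.val < s - 1) := by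
      intro v hv
      rw [Finset.mem_biUnion] at hv
      obtain ⟨e, he, hv⟩ := hv
      rw [Finset.mem_filter] at hv ⊢
      exact ⟨Finset.mem_univ _, hhigh e he v hv.2⟩
    have h5 := Finset.card_le_card hsub
    have h6 := Finset.card_filter_add_card_filter_not (s := (Finset.univ : Finset (Fin n)))
      (fun y : Fin n => y.val < s - 1)
    rw [Fin.card_filter_val_lt, Finset.card_univ, Fintype.card_fin] at h6
    rw [hbi] at h5
    omega

lemma ncard_le {n : ℕ} (G : SimpleGraph (Fin n)) : G.edgeSet.ncard ≤ n.choose 2 := by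
  classical
  have h := G.card_edgeFinset_le_card_choose_two
  rw [Fintype.card_fin] at h
  rw [Set.ncard_eq_toFinset_card']
  exact h

lemma ncard_top (n : ℕ) : (⊤ : SimpleGraph (Fin n)).edgeSet.ncard = n.choose 2 := by
  classical
  have h := SimpleGraph.card_edgeFinset_top_eq_card_choose_two (V := Fin n)
  rw [Fintype.card_fin] at h
  rw [Set.ncard_eq_toFinset_card', ← h]
  rfl

/-- a two-colouring without monochromatic matching gives a zero-sum-free one -/
lemma two_to_zero {n s : ℕ} (hs : 1 ≤ s) (G : SimpleGraph (Fin n)) (c : Sym2 (Fin n) → Bool)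
    (hc : ∀ F : Finset (Sym2 (Fin n)),
        (↑F : Set (Sym2 (Fin n))) ⊆ G.edgeSet → F.card = s →
        (∀ e ∈ F, ∀ f ∈ F, e ≠ f → ∀ v ∈ e, v ∉ f) →
        ¬ ∃ b : Bool, ∀ e ∈ F, c e = b) :
    ∃ c : Sym2 (Fin n) → ZMod s, ∀ F : Finset (Sym2 (Fin n)),
        (↑F : Set (Sym2 (Fin n))) ⊆ G.edgeSet → F.card = s →
        (∀ e ∈ F, ∀ f ∈ F, e ≠ f → ∀ v ∈ e, v ∉ f) → ∑ e ∈ F, c e ≠ 0 := by
  classical
  refine ⟨fun e => if c e = true then 1 else 0, ?_⟩
  intro F hF hcard hdis hsum
  rw [← Finset.sum_filter, Finset.sum_const, nsmul_eq_mul, mul_one,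
    ZMod.natCast_eq_zero_iff] at hsum
  have hle : (F.filter (fun e => c e = true)).card ≤ s := by
    rw [← hcard]; exact Finset.card_filter_le _ _
  rcases Nat.eq_zero_or_pos (F.filter (fun e => c e = true)).card with h | h
  · apply hc F hF hcard hdis
    refine ⟨false, fun e he => ?_⟩
    rw [Finset.card_eq_zero, Finset.filter_eq_empty_iff] at h
    simpa using h he
  · have h2 : (F.filter (fun e => c e = true)).card = s :=
      le_antisymm hle (Nat.le_of_dvd h hsum)
    apply hc F hF hcard hdis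
    refine ⟨true, fun e he => ?_⟩
    have h3 : F.filter (fun e => c e = true) = F :=
      Finset.eq_of_subset_of_card_le (Finset.filter_subset _ _) (by rw [h2, hcard])
    rw [← h3, Finset.mem_filter] at he
    exact he.2

/-- the value of both numbers in the two ranges -/
def value (n s : ℕ) : ℕ :=
  if n + 2 ≤ 3 * s then n.choose 2 else (2 * s - 2).choose 2 + (2 * s - 2) * (n - (2 * s - 2))

lemma value_large {n s : ℕ} (hn : 6 * s ≤ n + 5) (hsm : ¬ n + 2 ≤ 3 * s) :
    value n s = val n (2 * s - 2) := by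
  unfold value
  rw [if_neg hsm]
  obtain ⟨m, rfl⟩ : ∃ m, n = 2 * s - 2 + m := ⟨n - (2 * s - 2), by omega⟩
  unfold val
  rw [Nat.choose_two_right]
  set k := 2 * s - 2 with hk
  rw [Nat.add_sub_cancel_left]
  rcases Nat.eq_zero_or_pos k with h | h
  · rw [h]; simp
  · obtain ⟨j, hj⟩ : ∃ j, k = j + 1 := ⟨k - 1, by omega⟩
    rw [hj]
    have e1 : 2 * (j + 1 + m) - (j + 1) - 1 = j + 2 * m := by omega
    have e2 : j + 1 - 1 = j := by omega
    rw [e1, e2]
    have e3 : (j + 1) * (j + 2 * m) = (j + 1) * j + 2 * ((j + 1) * m) := by ring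
    rw [e3]
    omega

/-- **Theorem.** Let `s ≥ 1` and `n ≤ 3 s - 2` or `n ≥ 6 s - 5`. Then the largest number of edges of
a graph on `n` vertices with a two-colouring of the edges without monochromatic `s K_2`, and the
largest number of edges of one with a `ZMod s`-colouring without zero-sum `s K_2`, are both equal to
`value n s`. -/
theorem result : ∀ n s : ℕ, 1 ≤ s → (n + 2 ≤ 3 * s ∨ 6 * s ≤ n + 5) →
    (sSup {k : ℕ | ∃ G : SimpleGraph (Fin n), G.edgeSet.ncard = k ∧
      ∃ c : Sym2 (Fin n) → Bool, ∀ F : Finset (Sym2 (Fin n)),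
        (↑F : Set (Sym2 (Fin n))) ⊆ G.edgeSet → F.card = s →
        (∀ e ∈ F, ∀ f ∈ F, e ≠ f → ∀ v ∈ e, v ∉ f) →
        ¬ ∃ b : Bool, ∀ e ∈ F, c e = b} = value n s) ∧
    (sSup {k : ℕ | ∃ G : SimpleGraph (Fin n), G.edgeSet.ncard = k ∧
      ∃ c : Sym2 (Fin n) → ZMod s, ∀ F : Finset (Sym2 (Fin n)),
        (↑F : Set (Sym2 (Fin n))) ⊆ G.edgeSet → F.card = s →
        (∀ e ∈ F, ∀ f ∈ F, e ≠ f → ∀ v ∈ e, v ∉ f) →
        ∑ e ∈ F, c e ≠ 0} = value n s) := by
  intro n s hs hn
  by_cases hsm : n + 2 ≤ 3 * s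
  · have hv : value n s = n.choose 2 := by unfold value; rw [if_pos hsm]
    rw [hv]
    obtain ⟨c, hc⟩ := small_good n s hs hsm
    constructor
    · apply IsGreatest.csSup_eq
      refine ⟨⟨⊤, ncard_top n, c, hc⟩, ?_⟩
      rintro k ⟨G, rfl, -⟩
      exact ncard_le G
    · apply IsGreatest.csSup_eq
      refine ⟨⟨⊤, ncard_top n, two_to_zero hs _ c hc⟩, ?_⟩
      rintro k ⟨G, rfl, -⟩
      exact ncard_le G
  · have hn' : 6 * s ≤ n + 5 := by tauto
    rw [value_large hn' hsm]
    have he := ext_edges (n := n) (k := 2 * s - 2) (by omega)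
    obtain ⟨c, hc⟩ := ext_good n s hs
    constructor
    · apply IsGreatest.csSup_eq
      refine ⟨⟨ext n (2 * s - 2), he, c, hc⟩, ?_⟩
      rintro k ⟨G, rfl, c, hc⟩
      obtain ⟨c', hc'⟩ := two_to_zero hs G c hc
      exact upper hs hn' G c' hc'
    · apply IsGreatest.csSup_eq
      refine ⟨⟨ext n (2 * s - 2), he, two_to_zero hs _ c hc⟩, ?_⟩
      rintro k ⟨G, rfl, c, hc⟩
      exact upper hs hn' G c hc

end Pool.Agent.Results.MP_22c8d1_co.OutsideMiddleRange
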